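import Mathlib

/-!
# Crossing-free straight-line drawings in 3-space and line covers: definitions
-/

namespace Pool.Agent.W_MP_a0dd0b_co

/-- Euclidean 3-space. -/
abbrev E3 : Type := EuclideanSpace ℝ (Fin 3)

/-- `p` is a crossing-free straight-line drawing of `G` in 3-space: the vertices are mapped
injectively, no vertex lies on an edge segment of which it is not an endpoint, and two different
edge segments meet only in a common endpoint. -/
def IsDrawing {V : Type*} (G : SimpleGraph V) (p : V → E3) : Prop :=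
  Function.Injective p ∧
  (∀ u v w : V, G.Adj u v → p w ∈ segment ℝ (p u) (p v) → w = u ∨ w = v) ∧
  (∀ u v w z : V, G.Adj u v → G.Adj w z → s(u, v) ≠ s(w, z) →
    ∀ x ∈ segment ℝ (p u) (p v) ∩ segment ℝ (p w) (p z),
      ∃ a : V, (a = u ∨ a = v) ∧ (a = w ∨ a = z) ∧ x = p a)

/-- All edge segments of the drawing `p` of `G` lie on `k` lines: the `i`-th line passes through
the two different points `a i` and `b i`. -/
def OnLines {V : Type*} (G : SimpleGraph V) (p : V → E3) (k : ℕ) : Prop :=
  ∃ a b : Fin k → E3, (∀ i, a i ≠ b i) ∧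
    ∀ u v : V, G.Adj u v → ∃ i, segment ℝ (p u) (p v) ⊆ (line[ℝ, a i, b i] : Set E3)

/-- The dodecahedron graph as the generalized Petersen graph `GP(10, 2)` on the vertices
`0, …, 19`: the outer cycle `i ~ i + 1` (mod 10), the spokes `i ~ i + 10` and the inner edges
`10 + i ~ 10 + (i + 2)` (mod 10), for `i = 0, …, 9`. -/
def dodecahedron : SimpleGraph (Fin 20) :=
  SimpleGraph.fromRel fun u v : Fin 20 =>
    (u.val < 10 ∧ v.val = (u.val + 1) % 10) ∨
    (u.val < 10 ∧ v.val = u.val + 10) ∨
    (10 ≤ u.val ∧ v.val = 10 + (u.val - 10 + 2) % 10)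

end Pool.Agent.W_MP_a0dd0b_co
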