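import Pool.Agent.W_MP_a0dd0b_co.Defs

/-!
# A drawing of the dodecahedron graph on nine lines
-/

namespace Pool.Agent.W_MP_a0dd0b_co

/-- first coordinates -/
def X : Fin 20 → ℤ := ![35420, 38500, 49588, 56672, 55660, 77924, 0, 0, 21252, 28980, 38640, 37191,
  42504, 85008, 53130, 212520, 42504, 0, 38962, 30360]

/-- second coordinates -/
def Y : Fin 20 → ℤ := ![106260, 98560, 70840, 56672, 55660, 0, 0, 141680, 127512, 122360, 96600,
  116886, 85008, 85008, 53130, 0, 42504, 212520, 92092, 121440]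

/-- the thirty edges -/
def edges : List (Fin 20 × Fin 20) := [(0, 1), (0, 10), (10, 12), (1, 2), (1, 11), (11, 13),
  (2, 3), (2, 12), (12, 14), (3, 4), (3, 13), (13, 15), (4, 5), (4, 14), (14, 16), (5, 6), (5, 15),
  (15, 17), (6, 7), (6, 16), (16, 18), (7, 8), (7, 17), (17, 19), (8, 9), (8, 18), (10, 18), (0, 9),
  (9, 19), (11, 19)]

/-- the nine lines, given by two vertices on each -/
def ends : Fin 9 → Fin 20 × Fin 20 := ![(6, 7), (1, 11), (0, 10), (0, 1), (2, 3), (15, 17),
  (11, 13), (5, 6), (3, 4)]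

/-- orientation determinant -/
def orient (u v w : Fin 20) : ℤ :=
  (X v - X u) * (Y w - Y u) - (Y v - Y u) * (X w - X u)

/-- sufficient condition for a vertex `w` not to be on the segment `uv` -/
def offB (u v w : Fin 20) : Bool :=
  decide (orient u v w ≠ 0 ∨ X w < min (X u) (X v) ∨ max (X u) (X v) < X w ∨
    Y w < min (Y u) (Y v) ∨ max (Y u) (Y v) < Y w)

/-- sufficient condition for the segments `uv` and `wz` to be disjoint -/
def sepB (u v w z : Fin 20) : Bool :=
  decide ((0 < orient u v w ∧ 0 < orient u v z) ∨ (orient u v w < 0 ∧ orient u v z < 0) ∨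
    (0 < orient w z u ∧ 0 < orient w z v) ∨ (orient w z u < 0 ∧ orient w z v < 0) ∨
    max (X u) (X v) < min (X w) (X z) ∨ max (X w) (X z) < min (X u) (X v) ∨
    max (Y u) (Y v) < min (Y w) (Y z) ∨ max (Y w) (Y z) < min (Y u) (Y v))

/-- sufficient condition for the segments `uv` and `uw` to meet only in `u` -/
def meetB (u v w : Fin 20) : Bool :=
  decide (orient u v w ≠ 0 ∨ (X v < X u ∧ X u < X w) ∨ (X w < X u ∧ X u < X v) ∨
    (Y v < Y u ∧ Y u < Y w) ∨ (Y w < Y u ∧ Y u < Y v))

instance : DecidableRel dodecahedron.Adj := by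
  unfold dodecahedron
  infer_instance

lemma adj_mem : ∀ u v : Fin 20, dodecahedron.Adj u v → (u, v) ∈ edges ∨ (v, u) ∈ edges := by
  decide +kernel

lemma off_all : ∀ e ∈ edges, ∀ w : Fin 20, w ≠ e.1 → w ≠ e.2 → offB e.1 e.2 w = true := by
  decide +kernel

lemma sep_all : ∀ e ∈ edges, ∀ f ∈ edges, e.1 ≠ f.1 → e.1 ≠ f.2 → e.2 ≠ f.1 → e.2 ≠ f.2 →
    sepB e.1 e.2 f.1 f.2 = true := by
  decide +kernel

lemma meet_all : ∀ u v w : Fin 20, dodecahedron.Adj u v → dodecahedron.Adj u w → v ≠ w →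
    meetB u v w = true := by
  decide +kernel

lemma inj_all : ∀ u v : Fin 20, X u = X v → Y u = Y v → u = v := by
  decide +kernel

lemma line_all : ∀ e ∈ edges, ∃ i : Fin 9, orient (ends i).1 (ends i).2 e.1 = 0 ∧
    orient (ends i).1 (ends i).2 e.2 = 0 := by
  decide +kernel

lemma ends_ne : ∀ i : Fin 9, X (ends i).1 ≠ X (ends i).2 ∨ Y (ends i).1 ≠ Y (ends i).2 := by
  decide +kernel

/-- the drawing -/
noncomputable def pos (i : Fin 20) : E3 := !₂[(X i : ℝ), (Y i : ℝ), 0]

lemma pos_zero (i : Fin 20) : pos i 0 = X i := by simp [pos]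
lemma pos_one (i : Fin 20) : pos i 1 = Y i := by simp [pos]
lemma pos_two (i : Fin 20) : pos i 2 = 0 := by simp [pos]

lemma pos_inj : Function.Injective pos := by
  intro u v h
  have h0 : pos u 0 = pos v 0 := by rw [h]
  have h1 : pos u 1 = pos v 1 := by rw [h]
  rw [pos_zero, pos_zero] at h0
  rw [pos_one, pos_one] at h1
  have e0 : X u = X v := Int.cast_injective (α := ℝ) h0
  have e1 : Y u = Y v := Int.cast_injective (α := ℝ) h1
  exact inj_all u v e0 e1

lemma mem_seg {u v : Fin 20} {x : E3} (h : x ∈ segment ℝ (pos u) (pos v)) :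
    ∃ s t : ℝ, 0 ≤ s ∧ 0 ≤ t ∧ s + t = 1 ∧ x = s • pos u + t • pos v ∧
      x 0 = s * X u + t * X v ∧ x 1 = s * Y u + t * Y v := by
  obtain ⟨s, t, hs, ht, hst, rfl⟩ := h
  refine ⟨s, t, hs, ht, hst, rfl, ?_, ?_⟩
  · simp [pos_zero]
  · simp [pos_one]

lemma eq_left_of_t {u v : Fin 20} {x : E3} {s t : ℝ} (hst : s + t = 1) (ht : t = 0)
    (hx : x = s • pos u + t • pos v) : x = pos u := by
  subst ht
  rw [hx]
  have : s = 1 := by linarith
  rw [this]
  simp

/-- affine functional vanishing on the line `uv` -/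
noncomputable def fn (u v : Fin 20) (x : E3) : ℝ :=
  (X v - X u) * (x 1 - Y u) - (Y v - Y u) * (x 0 - X u)

lemma fn_seg {a b u v : Fin 20} {x : E3} {s t : ℝ} (hst : s + t = 1)
    (h0 : x 0 = s * X a + t * X b) (h1 : x 1 = s * Y a + t * Y b) :
    fn u v x = s * (orient u v a : ℝ) + t * (orient u v b : ℝ) := by
  have : s = 1 - t := by linarith
  subst this
  rw [fn, h0, h1, orient, orient]
  push_cast
  ring

lemma orient_self_left (u v : Fin 20) : orient u v u = 0 := by simp [orient]
lemma orient_self_right (u v : Fin 20) : orient u v v = 0 := by rw [orient]; ring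

lemma fn_self {u v : Fin 20} {x : E3} (h : x ∈ segment ℝ (pos u) (pos v)) : fn u v x = 0 := by
  obtain ⟨s, t, hs, ht, hst, -, h0, h1⟩ := mem_seg h
  rw [fn_seg hst h0 h1, orient_self_left, orient_self_right]
  simp

lemma pos_comb {s t : ℝ} (hs : 0 ≤ s) (ht : 0 ≤ t) (hst : s + t = 1) {a b : ℝ} (ha : 0 < a)
    (hb : 0 < b) : 0 < s * a + t * b := by
  rcases hs.lt_or_eq with h | h
  · have := mul_pos h ha
    have := mul_nonneg ht hb.le
    linarith
  · have : t = 1 := by linarith
    rw [← h, this]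
    simpa using hb

lemma comb_lt {s t : ℝ} (hs : 0 ≤ s) (ht : 0 ≤ t) (hst : s + t = 1) {a b c : ℤ}
    (ha : a ≤ c) (hb : b ≤ c) : s * (a : ℝ) + t * (b : ℝ) ≤ c := by
  have h1 : (a : ℝ) ≤ c := by exact_mod_cast ha
  have h2 : (b : ℝ) ≤ c := by exact_mod_cast hb
  have := mul_le_mul_of_nonneg_left h1 hs
  have := mul_le_mul_of_nonneg_left h2 ht
  have h3 : s * (c : ℝ) + t * c = c := by rw [← add_mul, hst, one_mul]
  linarith

lemma comb_gt {s t : ℝ} (hs : 0 ≤ s) (ht : 0 ≤ t) (hst : s + t = 1) {a b c : ℤ}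
    (ha : c ≤ a) (hb : c ≤ b) : (c : ℝ) ≤ s * (a : ℝ) + t * (b : ℝ) := by
  have h1 : (c : ℝ) ≤ a := by exact_mod_cast ha
  have h2 : (c : ℝ) ≤ b := by exact_mod_cast hb
  have := mul_le_mul_of_nonneg_left h1 hs
  have := mul_le_mul_of_nonneg_left h2 ht
  have h3 : s * (c : ℝ) + t * c = c := by rw [← add_mul, hst, one_mul]
  linarith

lemma off_spec {u v w : Fin 20} (h : offB u v w = true) : pos w ∉ segment ℝ (pos u) (pos v) := by
  intro hx
  have hf := fn_self hx
  obtain ⟨s, t, hs, ht, hst, -, h0, h1⟩ := mem_seg hx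
  rw [pos_zero] at h0
  rw [pos_one] at h1
  have hf' : fn u v (pos w) = (orient u v w : ℝ) := by
    rw [fn, pos_zero, pos_one, orient]
    push_cast
    ring
  rw [hf'] at hf
  have hf0 : orient u v w = 0 := by exact_mod_cast hf
  have hX1 := comb_gt hs ht hst (min_le_left (X u) (X v)) (min_le_right (X u) (X v))
  have hX2 := comb_lt hs ht hst (le_max_left (X u) (X v)) (le_max_right (X u) (X v))
  have hY1 := comb_gt hs ht hst (min_le_left (Y u) (Y v)) (min_le_right (Y u) (Y v))
  have hY2 := comb_lt hs ht hst (le_max_left (Y u) (Y v)) (le_max_right (Y u) (Y v))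
  rw [← h0] at hX1 hX2
  rw [← h1] at hY1 hY2
  have a1 : min (X u) (X v) ≤ X w := by exact_mod_cast hX1
  have a2 : X w ≤ max (X u) (X v) := by exact_mod_cast hX2
  have a3 : min (Y u) (Y v) ≤ Y w := by exact_mod_cast hY1
  have a4 : Y w ≤ max (Y u) (Y v) := by exact_mod_cast hY2
  rw [offB, decide_eq_true_eq] at h
  rcases h with h | h | h | h | h
  · exact h hf0
  · exact absurd a1 (not_le.mpr h)
  · exact absurd a2 (not_le.mpr h)
  · exact absurd a3 (not_le.mpr h)
  · exact absurd a4 (not_le.mpr h)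

lemma sep_aux {u v w z : Fin 20} {x : E3} (hx : x ∈ segment ℝ (pos u) (pos v))
    (hx' : x ∈ segment ℝ (pos w) (pos z))
    (h : (0 < orient u v w ∧ 0 < orient u v z) ∨ (orient u v w < 0 ∧ orient u v z < 0)) :
    False := by
  have hf := fn_self hx
  obtain ⟨s, t, hs, ht, hst, -, h0, h1⟩ := mem_seg hx'
  rw [fn_seg hst h0 h1] at hf
  rcases h with ⟨ha, hb⟩ | ⟨ha, hb⟩
  · have := pos_comb hs ht hst (a := (orient u v w : ℝ)) (b := (orient u v z : ℝ))
      (by exact_mod_cast ha) (by exact_mod_cast hb)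
    linarith
  · have := pos_comb hs ht hst (a := -(orient u v w : ℝ)) (b := -(orient u v z : ℝ))
      (by
        have : (orient u v w : ℝ) < 0 := by exact_mod_cast ha
        linarith)
      (by
        have : (orient u v z : ℝ) < 0 := by exact_mod_cast hb
        linarith)
    linarith

lemma sepX_aux {u v w z : Fin 20} {x : E3} (hx : x ∈ segment ℝ (pos u) (pos v))
    (hx' : x ∈ segment ℝ (pos w) (pos z)) (h : max (X u) (X v) < min (X w) (X z)) : False := by
  obtain ⟨s, t, hs, ht, hst, -, h0, -⟩ := mem_seg hx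
  obtain ⟨s', t', hs', ht', hst', -, h0', -⟩ := mem_seg hx'
  have h1 := comb_lt hs ht hst (le_max_left (X u) (X v)) (le_max_right (X u) (X v))
  have h2 := comb_gt hs' ht' hst' (min_le_left (X w) (X z)) (min_le_right (X w) (X z))
  have h3 : ((max (X u) (X v) : ℤ) : ℝ) < ((min (X w) (X z) : ℤ) : ℝ) := by exact_mod_cast h
  linarith

lemma sepY_aux {u v w z : Fin 20} {x : E3} (hx : x ∈ segment ℝ (pos u) (pos v))
    (hx' : x ∈ segment ℝ (pos w) (pos z)) (h : max (Y u) (Y v) < min (Y w) (Y z)) : False := by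
  obtain ⟨s, t, hs, ht, hst, -, -, h0⟩ := mem_seg hx
  obtain ⟨s', t', hs', ht', hst', -, -, h0'⟩ := mem_seg hx'
  have h1 := comb_lt hs ht hst (le_max_left (Y u) (Y v)) (le_max_right (Y u) (Y v))
  have h2 := comb_gt hs' ht' hst' (min_le_left (Y w) (Y z)) (min_le_right (Y w) (Y z))
  have h3 : ((max (Y u) (Y v) : ℤ) : ℝ) < ((min (Y w) (Y z) : ℤ) : ℝ) := by exact_mod_cast h
  linarith

lemma sep_spec {u v w z : Fin 20} (h : sepB u v w z = true) {x : E3}
    (hx : x ∈ segment ℝ (pos u) (pos v)) (hx' : x ∈ segment ℝ (pos w) (pos z)) : False := by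
  rw [sepB, decide_eq_true_eq] at h
  rcases h with h | h | h | h | h | h | h | h
  · exact sep_aux hx hx' (Or.inl h)
  · exact sep_aux hx hx' (Or.inr h)
  · exact sep_aux hx' hx (Or.inl h)
  · exact sep_aux hx' hx (Or.inr h)
  · exact sepX_aux hx hx' h
  · exact sepX_aux hx' hx h
  · exact sepY_aux hx hx' h
  · exact sepY_aux hx' hx h

lemma meet_aux {a b c t t' s s' : ℝ} (hs : s + t = 1) (hs' : s' + t' = 1) (ht : 0 ≤ t)
    (ht' : 0 ≤ t') (hb : b < a) (hc : a < c) (h : s * a + t * b = s' * a + t' * c) : t' = 0 := by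
  have e1 : s = 1 - t := by linarith
  have e2 : s' = 1 - t' := by linarith
  subst e1
  subst e2
  have h1 : t' * (c - a) = - (t * (a - b)) := by linear_combination -h
  have h2 : 0 ≤ t * (a - b) := mul_nonneg ht (by linarith)
  have h3 : 0 ≤ t' * (c - a) := mul_nonneg ht' (by linarith)
  have h4 : t' * (c - a) = 0 := by linarith
  rcases mul_eq_zero.mp h4 with h5 | h5
  · exact h5
  · linarith

lemma meet_spec {u v w : Fin 20} (h : meetB u v w = true) {x : E3}
    (hx : x ∈ segment ℝ (pos u) (pos v)) (hx' : x ∈ segment ℝ (pos u) (pos w)) : x = pos u := by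
  have hf := fn_self hx
  obtain ⟨s, t, hs, ht, hst, hxe, h0, h1⟩ := mem_seg hx
  obtain ⟨s', t', hs', ht', hst', hxe', h0', h1'⟩ := mem_seg hx'
  rw [meetB, decide_eq_true_eq] at h
  have cast : ∀ {a b : ℤ}, a < b → (a : ℝ) < b := fun hab => by exact_mod_cast hab
  rcases h with h | ⟨ha, hb⟩ | ⟨ha, hb⟩ | ⟨ha, hb⟩ | ⟨ha, hb⟩
  · rw [fn_seg hst' h0' h1', orient_self_left] at hf
    have h2 : t' * (orient u v w : ℝ) = 0 := by simpa using hf
    rcases mul_eq_zero.mp h2 with h3 | h3
    · exact eq_left_of_t hst' h3 hxe'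
    · exact absurd (by exact_mod_cast h3) h
  · exact eq_left_of_t hst' (meet_aux hst hst' ht ht' (cast ha) (cast hb) (h0.symm.trans h0')) hxe'
  · exact eq_left_of_t hst (meet_aux hst' hst ht' ht (cast ha) (cast hb) (h0'.symm.trans h0)) hxe
  · exact eq_left_of_t hst' (meet_aux hst hst' ht ht' (cast ha) (cast hb) (h1.symm.trans h1')) hxe'
  · exact eq_left_of_t hst (meet_aux hst' hst ht' ht (cast ha) (cast hb) (h1'.symm.trans h1)) hxe

lemma seg_comm (u v : Fin 20) : segment ℝ (pos u) (pos v) = segment ℝ (pos v) (pos u) :=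
  segment_symm ℝ _ _

theorem isDrawing : IsDrawing dodecahedron pos := by
  refine ⟨pos_inj, ?_, ?_⟩
  · intro u v w huv hw
    by_contra hne
    push Not at hne
    rcases adj_mem u v huv with h | h
    · exact off_spec (off_all _ h w hne.1 hne.2) hw
    · rw [seg_comm] at hw
      exact off_spec (off_all _ h w hne.2 hne.1) hw
  · rintro u v w z huv hwz hne x ⟨hx, hx'⟩
    by_cases h1 : u = w
    · subst h1
      have hvz : v ≠ z := fun h => hne (by rw [h])
      exact ⟨u, Or.inl rfl, Or.inl rfl, meet_spec (meet_all u v z huv hwz hvz) hx hx'⟩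
    by_cases h2 : u = z
    · subst h2
      have hvw : v ≠ w := fun h => hne (by rw [h, Sym2.eq_swap])
      rw [seg_comm w u] at hx'
      exact ⟨u, Or.inl rfl, Or.inr rfl, meet_spec (meet_all u v w huv hwz.symm hvw) hx hx'⟩
    by_cases h3 : v = w
    · subst h3
      rw [seg_comm u v] at hx
      exact ⟨v, Or.inr rfl, Or.inl rfl, meet_spec (meet_all v u z huv.symm hwz h2) hx hx'⟩
    by_cases h4 : v = z
    · subst h4
      rw [seg_comm u v] at hx
      rw [seg_comm w v] at hx'
      exact ⟨v, Or.inr rfl, Or.inr rfl, meet_spec (meet_all v u w huv.symm hwz.symm h1) hx hx'⟩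
    exfalso
    rcases adj_mem u v huv with h | h <;> rcases adj_mem w z hwz with h' | h'
    · exact sep_spec (sep_all _ h _ h' h1 h2 h3 h4) hx hx'
    · rw [seg_comm w z] at hx'
      exact sep_spec (sep_all _ h _ h' h2 h1 h4 h3) hx hx'
    · rw [seg_comm u v] at hx
      exact sep_spec (sep_all _ h _ h' h3 h4 h1 h2) hx hx'
    · rw [seg_comm u v] at hx
      rw [seg_comm w z] at hx'
      exact sep_spec (sep_all _ h _ h' h4 h3 h2 h1) hx hx'

lemma mem_line {a b u : Fin 20} (hab : X a ≠ X b ∨ Y a ≠ Y b) (h : orient a b u = 0) :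
    pos u ∈ line[ℝ, pos a, pos b] := by
  have hr : ((X b : ℝ) - X a) * (Y u - Y a) - (Y b - Y a) * (X u - X a) = 0 := by
    have : (orient a b u : ℝ) = 0 := by exact_mod_cast h
    rw [orient] at this
    push_cast at this
    exact this
  have key : ∃ t : ℝ, pos u = AffineMap.lineMap (pos a) (pos b) t := by
    rcases hab with hX | hY
    · have hne : (X b : ℝ) - X a ≠ 0 := by
        intro h0
        apply hX
        have : (X b : ℝ) = X a := by linarith
        exact_mod_cast this.symm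
      refine ⟨((X u : ℝ) - X a) / (X b - X a), ?_⟩
      ext i
      fin_cases i
      · simp [AffineMap.lineMap_apply, pos_zero]
        field_simp
        ring
      · simp [AffineMap.lineMap_apply, pos_one]
        field_simp
        linear_combination hr
      · simp [AffineMap.lineMap_apply, pos_two]
    · have hne : (Y b : ℝ) - Y a ≠ 0 := by
        intro h0
        apply hY
        have : (Y b : ℝ) = Y a := by linarith
        exact_mod_cast this.symm
      refine ⟨((Y u : ℝ) - Y a) / (Y b - Y a), ?_⟩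
      ext i
      fin_cases i
      · simp [AffineMap.lineMap_apply, pos_zero]
        field_simp
        linear_combination -hr
      · simp [AffineMap.lineMap_apply, pos_one]
        field_simp
        ring
      · simp [AffineMap.lineMap_apply, pos_two]
  obtain ⟨t, ht⟩ := key
  rw [ht]
  exact AffineMap.lineMap_mem_affineSpan_pair t _ _

lemma seg_sub_line {a b u v : Fin 20} (hab : X a ≠ X b ∨ Y a ≠ Y b) (hu : orient a b u = 0)
    (hv : orient a b v = 0) :
    segment ℝ (pos u) (pos v) ⊆ (line[ℝ, pos a, pos b] : Set E3) :=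
  (AffineSubspace.convex (line[ℝ, pos a, pos b])).segment_subset (mem_line hab hu)
    (mem_line hab hv)

theorem onLines : OnLines dodecahedron pos 9 := by
  refine ⟨fun i => pos (ends i).1, fun i => pos (ends i).2, ?_, ?_⟩
  · intro i h
    have h' := pos_inj h
    rcases ends_ne i with h1 | h1
    · exact h1 (by rw [h'])
    · exact h1 (by rw [h'])
  · intro u v huv
    rcases adj_mem u v huv with h | h
    · obtain ⟨i, h1, h2⟩ := line_all _ h
      exact ⟨i, seg_sub_line (ends_ne i) h1 h2⟩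
    · obtain ⟨i, h1, h2⟩ := line_all _ h
      rw [seg_comm]
      exact ⟨i, seg_sub_line (ends_ne i) h1 h2⟩

end Pool.Agent.W_MP_a0dd0b_co
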